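import Pool.Agent.Lib.MP_94c361_co_h9.Fin

/-! # Amplification -/

set_option autoImplicit false

namespace ATC

open MvPolynomial Nat

theorem class_card {n : ℕ} (e' : Equiv.Perm (Fin (n + 1))) (r : ℕ) (hr : r ≤ n) :
    (Finset.univ.filter (fun e : Equiv.Perm (Fin (n + 1)) =>
        ∀ i : Fin (n + 1), i.val + r ≤ n → e i = e' i)).card ≤ r ! := by
  classical
  set l0 := (List.ofFn e').drop (n + 1 - r) with hl0
  have hl0l : l0.length = r := by
    rw [hl0, List.length_drop, List.length_ofFn]; omega
  have h1 : (l0.permutations.toFinset).card ≤ r ! := by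
    refine (List.toFinset_card_le _).trans ?_
    rw [List.length_permutations, hl0l]
  refine le_trans ?_ h1
  have htake : ∀ e : Equiv.Perm (Fin (n + 1)), (∀ i : Fin (n + 1), i.val + r ≤ n → e i = e' i) →
      (List.ofFn e).take (n + 1 - r) = (List.ofFn e').take (n + 1 - r) := by
    intro e he
    apply List.ext_getElem
    · simp only [List.length_take, List.length_ofFn]
    · intro i h2 h3
      rw [List.getElem_take, List.getElem_take, List.getElem_ofFn, List.getElem_ofFn]
      refine he _ ?_
      rw [List.length_take, List.length_ofFn] at h2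
      show i + r ≤ n
      omega
  refine Finset.card_le_card_of_injOn (fun e => (List.ofFn e).drop (n + 1 - r)) ?_ ?_
  · intro e he
    simp only [Finset.coe_filter, Finset.mem_univ, true_and, Set.mem_ofPred_eq] at he
    rw [Finset.mem_coe, List.mem_toFinset, List.mem_permutations]
    have h2 : (List.ofFn e).Perm (List.ofFn e') :=
      (List.perm_ext_iff_of_nodup (List.nodup_ofFn.2 e.injective)
        (List.nodup_ofFn.2 e'.injective)).2 fun v => by
          rw [List.mem_ofFn, List.mem_ofFn]
          exact ⟨fun _ => e'.surjective v, fun _ => e.surjective v⟩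
    have h3 := htake e he
    rw [← List.take_append_drop (n + 1 - r) (List.ofFn e),
      ← List.take_append_drop (n + 1 - r) (List.ofFn e'), h3] at h2
    exact (List.perm_append_left_iff _).1 h2
  · intro e he f hf hef
    simp only [Finset.coe_filter, Finset.mem_univ, true_and, Set.mem_ofPred_eq] at he hf
    have h3 : List.ofFn e = List.ofFn f := by
      rw [← List.take_append_drop (n + 1 - r) (List.ofFn e),
        ← List.take_append_drop (n + 1 - r) (List.ofFn f), htake e he, htake f hf]
      exact congrArg _ hef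
    exact Equiv.coe_fn_injective (List.ofFn_injective h3)

theorem fact_eq (r : ℕ) : r.choose (r / 2) * ((r / 2)! * ((r + 1) / 2)!) = r ! := by
  have h1 := Nat.choose_mul_factorial_mul_factorial (Nat.div_le_self r 2)
  have h2 : r - r / 2 = (r + 1) / 2 := by omega
  rw [h2] at h1
  rw [← mul_assoc]
  exact h1

theorem fact_pos (r : ℕ) : 0 < (r / 2)! * ((r + 1) / 2)! :=
  Nat.mul_pos (Nat.factorial_pos _) (Nat.factorial_pos _)

theorem local_form {n : ℕ} (P : MvPolynomial (Fin (n + 1)) ℤ) (m : Fin (n + 1) →₀ ℕ)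
    (e' : Equiv.Perm (Fin (n + 1))) (r : ℕ) (hr : r ≤ n) (h : coeff m (P * ham e') ≠ 0) :
    r ! ≤ r.choose (r / 2) *
      (Finset.univ.filter (fun e : Equiv.Perm (Fin (n + 1)) =>
        (∀ i : Fin (n + 1), i.val + r ≤ n → e i = e' i) ∧ coeff m (P * ham e) ≠ 0)).card := by
  rw [← fact_eq r]
  exact Nat.mul_le_mul_left _ (completions P m e' r hr h)

theorem amplify {n : ℕ} (P : MvPolynomial (Fin (n + 1)) ℤ) (m : Fin (n + 1) →₀ ℕ)
    (r : ℕ) (hr : r ≤ n) :
    (Finset.univ.filter (fun e' : Equiv.Perm (Fin (n + 1)) => ∃ e : Equiv.Perm (Fin (n + 1)),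
        (∀ i : Fin (n + 1), i.val + r ≤ n → e i = e' i) ∧ coeff m (P * ham e) ≠ 0)).card ≤
      r.choose (r / 2) * (Finset.univ.filter (fun e : Equiv.Perm (Fin (n + 1)) =>
        coeff m (P * ham e) ≠ 0)).card := by
  classical
  set A := Finset.univ.filter (fun e' : Equiv.Perm (Fin (n + 1)) =>
    ∃ e : Equiv.Perm (Fin (n + 1)),
        (∀ i : Fin (n + 1), i.val + r ≤ n → e i = e' i) ∧ coeff m (P * ham e) ≠ 0) with hA
  set B := Finset.univ.filter (fun e : Equiv.Perm (Fin (n + 1)) =>
        coeff m (P * ham e) ≠ 0) with hB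
  have key : A.card * ((r / 2)! * ((r + 1) / 2)!) ≤ B.card * r ! := by
    refine Finset.card_mul_le_card_mul
      (fun e' e : Equiv.Perm (Fin (n + 1)) => ∀ i : Fin (n + 1), i.val + r ≤ n → e i = e' i) ?_ ?_
    · intro e' he'
      rw [hA, Finset.mem_filter] at he'
      obtain ⟨_, e0, h0, h1⟩ := he'
      refine (completions P m e0 r hr h1).trans (Finset.card_le_card ?_)
      intro e he
      rw [Finset.mem_filter] at he
      rw [Finset.mem_bipartiteAbove, hB, Finset.mem_filter]
      exact ⟨⟨Finset.mem_univ _, he.2.2⟩, fun i hi => (he.2.1 i hi).trans (h0 i hi)⟩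
    · intro e he
      refine le_trans (Finset.card_le_card ?_) (class_card e r hr)
      intro e' he'
      rw [Finset.mem_bipartiteBelow] at he'
      rw [Finset.mem_filter]
      exact ⟨Finset.mem_univ _, fun i hi => (he'.2 i hi).symm⟩
  rw [← fact_eq r, ← mul_assoc B.card] at key
  have h2 := Nat.le_of_mul_le_mul_right key (fact_pos r)
  rw [mul_comm]
  exact h2

theorem every_form {n : ℕ} (hn : 1 ≤ n) (e₁ : Equiv.Perm (Fin (n + 1))) :
    (n + 1)! ≤ n.choose (n / 2) *
      (Finset.univ.filter (fun e : Equiv.Perm (Fin (n + 1)) =>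
        coeff (two (n + 1)) (ham e₁ * ham e) ≠ 0)).card := by
  have h1 := every hn e₁
  rw [Nat.factorial_succ, ← fact_eq n, mul_left_comm]
  exact Nat.mul_le_mul_left _ h1

end ATC
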