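import Mathlib

/-! # A doubled Hamiltonian cycle has a non-zero coefficient -/

set_option autoImplicit false

namespace ATC

open MvPolynomial

/-- the exponent `2` at every vertex -/
noncomputable def two (n : ℕ) : Fin n →₀ ℕ := Finsupp.equivFunOnFinite.symm (fun _ => 2)

theorem two_apply (n : ℕ) (v : Fin n) : two n v = 2 := rfl

/-- the product of `X u - X v` over the sides of the closed polygon `e 0, e 1, ..., e n, e 0` -/
noncomputable def ham {n : ℕ} (e : Equiv.Perm (Fin (n + 1))) : MvPolynomial (Fin (n + 1)) ℤ :=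
  ∏ i : Fin (n + 1), (X (e i) - X (e (i + 1)))

/-- exponents of the choice `S` -/
noncomputable def mu {n : ℕ} (e : Equiv.Perm (Fin (n + 1))) (S : Finset (Fin (n + 1))) :
    Fin (n + 1) →₀ ℕ :=
  ∑ i ∈ S, Finsupp.single (e i) 1 + ∑ i ∈ Sᶜ, Finsupp.single (e (i + 1)) 1

theorem ham_sum {n : ℕ} (e : Equiv.Perm (Fin (n + 1))) :
    ham e = ∑ S : Finset (Fin (n + 1)), monomial (mu e S) ((-1 : ℤ) ^ Sᶜ.card) := by
  unfold ham
  simp only [sub_eq_add_neg]
  rw [Finset.prod_add, Finset.powerset_univ]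
  refine Finset.sum_congr rfl fun S _ => ?_
  have h1 : ∏ i ∈ S, (X (e i) : MvPolynomial (Fin (n + 1)) ℤ) =
      monomial (∑ i ∈ S, Finsupp.single (e i) 1) 1 := by
    rw [monomial_sum_one]
    rfl
  have h2 : ∏ i ∈ Sᶜ, (X (e (i + 1)) : MvPolynomial (Fin (n + 1)) ℤ) =
      monomial (∑ i ∈ Sᶜ, Finsupp.single (e (i + 1)) 1) 1 := by
    rw [monomial_sum_one]
    rfl
  have h3 : (Finset.univ \ S : Finset (Fin (n + 1))) = Sᶜ := rfl
  rw [h3, Finset.prod_neg, h1, h2]
  have h4 : ((-1 : MvPolynomial (Fin (n + 1)) ℤ)) ^ Sᶜ.card = C ((-1 : ℤ) ^ Sᶜ.card) := by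
    simp
  rw [h4, C_mul_monomial, monomial_mul]
  unfold mu
  simp

theorem mu_compl {n : ℕ} (e : Equiv.Perm (Fin (n + 1))) (S : Finset (Fin (n + 1))) :
    mu e S + mu e Sᶜ = two (n + 1) := by
  have h1 : ∀ σ : Equiv.Perm (Fin (n + 1)), ∑ i, Finsupp.single (σ i) 1 =
      (Finsupp.equivFunOnFinite.symm (fun _ => 1) : Fin (n + 1) →₀ ℕ) := by
    intro σ
    ext v
    rw [Finsupp.finsetSum_apply]
    simp only [Finsupp.single_apply]
    have : ∀ i, (σ i = v) ↔ (i = σ.symm v) := fun i => by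
      rw [Equiv.eq_symm_apply]
    simp [this]
  have h2 := h1 e
  have h3 := h1 ((Equiv.addRight (1 : Fin (n + 1))).trans e)
  simp only [Equiv.trans_apply, Equiv.coe_addRight] at h3
  have h4 : mu e S + mu e Sᶜ = (∑ i, Finsupp.single (e i) 1) +
      ∑ i, Finsupp.single (e (i + 1)) 1 := by
    unfold mu
    rw [compl_compl, ← Finset.sum_add_sum_compl S (fun i => Finsupp.single (e i) 1),
      ← Finset.sum_add_sum_compl S (fun i => Finsupp.single (e (i + 1)) 1)]
    abel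
  rw [h4, h2, h3]
  ext v
  rfl

theorem coeff_ham {n : ℕ} (e : Equiv.Perm (Fin (n + 1))) (b : Fin (n + 1) →₀ ℕ) :
    coeff b (ham e) = ∑ S : Finset (Fin (n + 1)), if mu e S = b then (-1 : ℤ) ^ Sᶜ.card else 0 := by
  rw [ham_sum, coeff_sum]
  refine Finset.sum_congr rfl fun S _ => ?_
  rw [coeff_monomial]

theorem coeff_symm {n : ℕ} (e : Equiv.Perm (Fin (n + 1))) {b b' : Fin (n + 1) →₀ ℕ}
    (h : b + b' = two (n + 1)) : coeff b' (ham e) = (-1) ^ (n + 1) * coeff b (ham e) := by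
  rw [coeff_ham, coeff_ham, Finset.mul_sum]
  refine Fintype.sum_bijective (fun S => Sᶜ) compl_bijective _ _ fun S => ?_
  rw [compl_compl]
  have h1 : mu e S = b' ↔ mu e Sᶜ = b := by
    have h2 := mu_compl e S
    rw [← h] at h2
    constructor
    · intro h3
      rw [h3, add_comm b b'] at h2
      exact add_left_cancel h2
    · intro h3
      rw [h3, add_comm b b'] at h2
      exact add_right_cancel h2
  by_cases h3 : mu e S = b'
  · rw [if_pos h3, if_pos (h1.1 h3)]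
    have h4 : S.card + Sᶜ.card = n + 1 := by
      rw [Finset.card_add_card_compl, Fintype.card_fin]
    have h5 : (-1 : ℤ) ^ (n + 1) = (-1) ^ S.card * (-1) ^ Sᶜ.card := by
      rw [← pow_add, h4]
    have h6 : ((-1 : ℤ) ^ S.card) * (-1) ^ S.card = 1 := by
      rw [← pow_add, ← two_mul, pow_mul]
      simp
    rw [h5, mul_comm ((-1 : ℤ) ^ S.card), mul_assoc, h6, mul_one]
  · rw [if_neg h3, if_neg (fun h5 => h3 (h1.2 h5)), mul_zero]

theorem ham_ne {n : ℕ} (hn : 1 ≤ n) (e : Equiv.Perm (Fin (n + 1))) : ham e ≠ 0 := by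
  unfold ham
  rw [Finset.prod_ne_zero_iff]
  intro i _ h
  have h1 := sub_eq_zero.1 h
  have h2 := e.injective (X_injective h1)
  have h3 : (1 : Fin (n + 1)) = 0 := by
    have := h2.symm
    simpa using this
  obtain ⟨k, rfl⟩ : ∃ k, n = k + 1 := ⟨n - 1, by omega⟩
  exact one_ne_zero h3

theorem double_ne {n : ℕ} (hn : 1 ≤ n) (e : Equiv.Perm (Fin (n + 1))) :
    coeff (two (n + 1)) (ham e * ham e) ≠ 0 := by
  intro h
  rw [coeff_mul] at h
  have h1 : ∑ x ∈ Finset.HasAntidiagonal.antidiagonal (two (n + 1)), coeff x.1 (ham e) * coeff x.2 (ham e) =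
      (-1) ^ (n + 1) * ∑ x ∈ Finset.HasAntidiagonal.antidiagonal (two (n + 1)), (coeff x.1 (ham e)) ^ 2 := by
    rw [Finset.mul_sum]
    refine Finset.sum_congr rfl fun x hx => ?_
    rw [coeff_symm e (Finset.HasAntidiagonal.mem_antidiagonal.1 hx)]
    ring
  rw [h1] at h
  have h2 : ∑ x ∈ Finset.HasAntidiagonal.antidiagonal (two (n + 1)), (coeff x.1 (ham e)) ^ 2 = 0 := by
    rcases mul_eq_zero.1 h with h3 | h3
    · exact absurd h3 (pow_ne_zero _ (by norm_num))
    · exact h3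
  rw [Finset.sum_eq_zero_iff_of_nonneg (fun x _ => sq_nonneg _)] at h2
  refine ham_ne hn e ?_
  ext b
  rw [coeff_zero]
  by_cases hb : ∃ S, mu e S = b
  · obtain ⟨S, rfl⟩ := hb
    have h3 := h2 (mu e S, mu e Sᶜ) (Finset.HasAntidiagonal.mem_antidiagonal.2 (mu_compl e S))
    exact pow_eq_zero_iff (two_ne_zero) |>.1 h3
  · rw [coeff_ham]
    refine Finset.sum_eq_zero fun S _ => ?_
    rw [if_neg (fun h5 => hb ⟨S, h5⟩)]

end ATC
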