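import Pool.Agent.Lib.MP_94c361_co_h9.Plu

/-! # Counting completions -/

set_option autoImplicit false

namespace ATC

open Nat

variable {V A : Type*} [CommRing A] (x : V → A)

/-- in a list in which one of any two neighbours satisfies `P`, at least half of the entries
(rounded down) satisfy `P` -/
theorem pairs (P : V → Bool) : ∀ l : List V,
    (∀ S u v T, l = S ++ u :: v :: T → P u = true ∨ P v = true) →
    l.length / 2 ≤ (l.filter P).length
  | [], _ => by simp
  | [_], _ => by simp
  | a :: b :: l, h => by
    have ih := pairs P l (fun S u v T hl => h (a :: b :: S) u v T (by rw [hl]; simp))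
    have h1 : P a = true ∨ P b = true := h [] a b l rfl
    have h2 : 1 + (l.filter P).length ≤ ((a :: b :: l).filter P).length := by
      rcases h1 with h1 | h1
      · rw [List.filter_cons_of_pos h1, List.length_cons]
        have : (l.filter P).length ≤ ((b :: l).filter P).length := by
          by_cases hb : P b = true
          · rw [List.filter_cons_of_pos hb, List.length_cons]; omega
          · rw [List.filter_cons_of_neg hb]
        omega
      · have h3 : ((b :: l).filter P).length = (l.filter P).length + 1 := by
          rw [List.filter_cons_of_pos h1, List.length_cons]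
        have : ((b :: l).filter P).length ≤ ((a :: b :: l).filter P).length := by
          by_cases hb : P a = true
          · rw [List.filter_cons_of_pos hb, List.length_cons]; omega
          · rw [List.filter_cons_of_neg hb]
        omega
    simp only [List.length_cons] at *
    omega

variable [DecidableEq V]

/-- the arrangements `m` of the entries of `l` for which the closed path `z, m, a` is non-zero -/
def good (Ψ : A →+ ℤ) (z a : V) (l : List V) : Finset (List V) :=
  l.permutations.toFinset.filter (fun m => Ψ (W x (z :: (m ++ [a]))) ≠ 0)

theorem mem_good {Ψ : A →+ ℤ} {z a : V} {l m : List V} :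
    m ∈ good x Ψ z a l ↔ m.Perm l ∧ Ψ (W x (z :: (m ++ [a]))) ≠ 0 := by
  unfold good
  rw [Finset.mem_filter, List.mem_toFinset, List.mem_permutations]

theorem count : ∀ (r : ℕ) (l : List V) (Ψ : A →+ ℤ) (z a : V), l.length = r → l.Nodup →
    Ψ (W x (z :: (l ++ [a]))) ≠ 0 → (r / 2)! * ((r + 1) / 2)! ≤ (good x Ψ z a l).card := by
  classical
  intro r
  induction r with
  | zero =>
    intro l Ψ z a hl hn h
    have : 0 < (good x Ψ z a l).card :=
      Finset.card_pos.2 ⟨l, (mem_good x).2 ⟨List.Perm.refl l, h⟩⟩
    simpa using this
  | succ r ih =>
    intro l Ψ z a hl hn h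
    -- the possible first vertices
    let OK : V → Prop := fun w => ∃ m : List V, (w :: m).Perm l ∧
      Ψ (W x (z :: (w :: m ++ [a]))) ≠ 0
    have hadj : ∀ S u v T, l = S ++ u :: v :: T → OK u ∨ OK v := by
      intro S u v T hS
      rcases S with _ | ⟨w, S⟩
      · left
        refine ⟨v :: T, by rw [hS]; simp, ?_⟩
        rw [hS] at h
        simpa using h
      · rw [hS] at h
        rcases switch x Ψ z a w u v S T h with h1 | h1 | h1
        · left
          refine ⟨_, ?_, h1⟩
          rw [hS, List.perm_iff_count]
          intro c
          simp only [List.count_append, List.count_cons, List.count_reverse, List.cons_append]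
          omega
        · right
          refine ⟨_, ?_, h1⟩
          rw [hS, List.perm_iff_count]
          intro c
          simp only [List.count_append, List.count_cons, List.cons_append]
          omega
        · right
          refine ⟨_, ?_, h1⟩
          rw [hS, List.perm_iff_count]
          intro c
          simp only [List.count_append, List.count_cons, List.count_reverse, List.cons_append]
          omega
    obtain ⟨w0, l', rfl⟩ : ∃ w0 l', l = w0 :: l' := by
      cases l with
      | nil => simp at hl
      | cons w0 l' => exact ⟨w0, l', rfl⟩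
    have hw0 : OK w0 := ⟨l', List.Perm.refl _, h⟩
    set S : Finset V := ((w0 :: l').filter (fun w => decide (OK w))).toFinset with hS
    have hSc : (r + 2) / 2 ≤ S.card := by
      rw [hS, List.toFinset_card_of_nodup (hn.filter _), List.filter_cons_of_pos (by simpa using hw0),
        List.length_cons]
      have h1 := pairs (fun w => decide (OK w)) l' (by
        intro S u v T hST
        have := hadj (w0 :: S) u v T (by rw [hST]; simp)
        simpa using this)
      have h2 : l'.length = r := by simpa using hl
      omega
    have hmem : ∀ w, w ∈ S → OK w := by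
      intro w hw
      rw [hS, List.mem_toFinset, List.mem_filter] at hw
      simpa using hw.2
    choose! mw hmw using (fun w (hw : OK w) => hw)
    let Ψw : V → (A →+ ℤ) := fun w => Ψ.comp (AddMonoidHom.mulLeft (x z - x w))
    have hcard : ∀ w ∈ S, (r / 2)! * ((r + 1) / 2)! ≤ (good x (Ψw w) w a (mw w)).card := by
      intro w hw
      obtain ⟨h1, h2⟩ := hmw w (hmem w hw)
      refine ih (mw w) (Ψw w) w a ?_ ?_ ?_
      · have := h1.length_eq
        simp only [List.length_cons] at this hl
        omega
      · exact (List.nodup_cons.1 (h1.nodup_iff.2 hn)).2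
      · exact h2
    have hsub : S.biUnion (fun w => (good x (Ψw w) w a (mw w)).image (fun m => w :: m)) ⊆
        good x Ψ z a (w0 :: l') := by
      intro m hm
      rw [Finset.mem_biUnion] at hm
      obtain ⟨w, hw, hm⟩ := hm
      rw [Finset.mem_image] at hm
      obtain ⟨m', hm', rfl⟩ := hm
      rw [mem_good] at hm' ⊢
      exact ⟨(hm'.1.cons w).trans (hmw w (hmem w hw)).1, hm'.2⟩
    have hdisj : ∀ w ∈ S, ∀ w' ∈ S, w ≠ w' →
        Disjoint ((good x (Ψw w) w a (mw w)).image (fun m => w :: m))
          ((good x (Ψw w') w' a (mw w')).image (fun m => w' :: m)) := by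
      intro w _ w' _ hne
      rw [Finset.disjoint_left]
      intro m h1 h2
      rw [Finset.mem_image] at h1 h2
      obtain ⟨m1, _, rfl⟩ := h1
      obtain ⟨m2, _, h3⟩ := h2
      exact hne (List.cons.inj h3).1.symm
    calc ((r + 1) / 2)! * ((r + 1 + 1) / 2)!
        = ((r + 2) / 2) * ((r / 2)! * ((r + 1) / 2)!) := by
          have e1 : (r + 1 + 1) / 2 = r / 2 + 1 := by omega
          rw [e1, Nat.factorial_succ]
          ring
      _ ≤ S.card * ((r / 2)! * ((r + 1) / 2)!) := Nat.mul_le_mul_right _ hSc
      _ = ∑ w ∈ S, ((r / 2)! * ((r + 1) / 2)!) := by rw [Finset.sum_const, smul_eq_mul]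
      _ ≤ ∑ w ∈ S, ((good x (Ψw w) w a (mw w)).image (fun m => w :: m)).card := by
          refine Finset.sum_le_sum fun w hw => ?_
          rw [Finset.card_image_of_injective _ (fun m1 m2 h => (List.cons.inj h).2)]
          exact hcard w hw
      _ = (S.biUnion (fun w => (good x (Ψw w) w a (mw w)).image (fun m => w :: m))).card := by
          rw [Finset.card_biUnion hdisj]
      _ ≤ (good x Ψ z a (w0 :: l')).card := Finset.card_le_card hsub

end ATC
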