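import Pool.Agent.Lib.MP_94c361_co_h9.Cnt
import Pool.Agent.Lib.MP_94c361_co_h9.Base

/-! # Completions of a Hamiltonian cycle: orderings of the vertices -/

set_option autoImplicit false

namespace ATC

open MvPolynomial Nat

theorem W_ofFn {V A : Type*} [CommRing A] (x : V → A) (b : V) : ∀ (k : ℕ) (f : Fin (k + 1) → V),
    W x (List.ofFn f ++ [b]) =
      (∏ i : Fin k, (x (f i.castSucc) - x (f i.succ))) * (x (f (Fin.last k)) - x b)
  | 0, f => by
    rw [List.ofFn_succ, List.ofFn_zero]
    simp [W]
  | k + 1, f => by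
    have ih := W_ofFn x b k (fun i => f i.succ)
    have e1 : List.ofFn f = f 0 :: List.ofFn (fun i : Fin (k + 1) => f i.succ) :=
      List.ofFn_succ
    have e2 : List.ofFn (fun i : Fin (k + 1) => f i.succ) =
        f (Fin.succ 0) :: List.ofFn (fun i : Fin k => f i.succ.succ) := List.ofFn_succ
    rw [Fin.prod_univ_succ, mul_assoc, e1]
    have e3 : W x (f 0 :: List.ofFn (fun i : Fin (k + 1) => f i.succ) ++ [b]) =
        (x (f 0) - x (f (Fin.succ 0))) *
          W x (List.ofFn (fun i : Fin (k + 1) => f i.succ) ++ [b]) := by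
      rw [e2]
      rfl
    rw [e3, ih]
    rfl

theorem ham_W {n : ℕ} (e : Equiv.Perm (Fin (n + 1))) :
    ham e = W (X : Fin (n + 1) → MvPolynomial (Fin (n + 1)) ℤ) (List.ofFn e ++ [e 0]) := by
  rw [W_ofFn]
  unfold ham
  rw [Fin.prod_univ_castSucc]
  congr 1
  · refine Finset.prod_congr rfl fun i _ => ?_
    rw [Fin.coeSucc_eq_succ]
  · rw [Fin.last_add_one]

theorem toPerm {n : ℕ} {L : List (Fin n)} (hl : L.length = n) (hn : L.Nodup) :
    ∃ e : Equiv.Perm (Fin n), List.ofFn e = L := by
  have hinj : Function.Injective (fun i : Fin n => L.get (i.cast hl.symm)) := by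
    intro i j h
    have := List.nodup_iff_injective_get.1 hn h
    simpa using this
  refine ⟨Equiv.ofBijective _ (Finite.injective_iff_bijective.1 hinj), ?_⟩
  apply List.ext_getElem
  · simp [hl]
  · intro i h1 h2
    simp

/-- if the cycle `e'` is non-zero for the functional `coeff m (P * _)`, so are many of the cycles
which have the same first `n + 1 - r` vertices -/
theorem completions {n : ℕ} (P : MvPolynomial (Fin (n + 1)) ℤ) (m : Fin (n + 1) →₀ ℕ)
    (e' : Equiv.Perm (Fin (n + 1))) (r : ℕ) (hr : r ≤ n) (h : coeff m (P * ham e') ≠ 0) :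
    (r / 2)! * ((r + 1) / 2)! ≤
      (Finset.univ.filter (fun e : Equiv.Perm (Fin (n + 1)) =>
        (∀ i : Fin (n + 1), i.val + r ≤ n → e i = e' i) ∧ coeff m (P * ham e) ≠ 0)).card := by
  classical
  set L := List.ofFn e' with hL
  have hLl : L.length = n + 1 := by simp [hL]
  have hLn : L.Nodup := List.nodup_ofFn.2 e'.injective
  set k := n - r with hk
  -- the fixed part and the rest
  have hsplit : L = (L.take k) ++ L[k]'(by omega) :: (L.drop (k + 1)) := by
    rw [← List.drop_eq_getElem_cons (by omega), List.take_append_drop]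
  set Q := L.take k with hQ
  set z := L[k]'(by omega) with hz
  set l0 := L.drop (k + 1) with hl0
  have hl0l : l0.length = r := by rw [hl0, List.length_drop, hLl]; omega
  have hQl : Q.length = k := by rw [hQ, List.length_take, hLl]; omega
  have hl0n : l0.Nodup := hLn.sublist (List.drop_sublist _ _)
  let Ψ : MvPolynomial (Fin (n + 1)) ℤ →+ ℤ :=
    (coeffAddMonoidHom m).comp (AddMonoidHom.mulLeft (P * W X (Q ++ [z])))
  have hval : ∀ (e : Equiv.Perm (Fin (n + 1))) (l : List (Fin (n + 1))),
      List.ofFn e = Q ++ z :: l → e 0 = e' 0 →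
      coeff m (P * ham e) = Ψ (W X (z :: (l ++ [e' 0]))) := by
    intro e l he h0
    rw [ham_W, he, h0]
    have e1 : Q ++ z :: l ++ [e' 0] = Q ++ z :: (l ++ [e' 0]) := by simp
    rw [e1, W_mid]
    show _ = coeff m (P * W X (Q ++ [z]) * W X (z :: (l ++ [e' 0])))
    rw [mul_assoc]
  have h1 : Ψ (W X (z :: (l0 ++ [e' 0]))) ≠ 0 := by
    rw [← hval e' l0 hsplit rfl]
    exact h
  have h2 := count X r l0 Ψ z (e' 0) hl0l hl0n h1
  refine h2.trans ?_
  have hex : ∀ l ∈ good X Ψ z (e' 0) l0, ∃ e : Equiv.Perm (Fin (n + 1)),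
      List.ofFn e = Q ++ z :: l := by
    intro l hl
    rw [mem_good] at hl
    have hp : (Q ++ z :: l).Perm L := by
      rw [hsplit]
      exact (hl.1.cons z).append_left Q
    exact toPerm (by rw [hp.length_eq, hLl]) (hp.nodup_iff.2 hLn)
  choose! E hE using hex
  refine Finset.card_le_card_of_injOn E ?_ ?_
  · intro l hl
    have hl' := (mem_good X).1 hl
    have hagree : ∀ i : Fin (n + 1), i.val + r ≤ n → E l i = e' i := by
      intro i hi
      have h3 : E l i = (List.ofFn (E l))[i.val]'(by rw [List.length_ofFn]; exact i.isLt) := by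
        rw [List.getElem_ofFn]
      have h4 : e' i = L[i.val]'(by rw [hLl]; exact i.isLt) := by
        simp only [hL, List.getElem_ofFn]
      have h5 : ∀ (M : List (Fin (n + 1))) (hM : M = Q ++ z :: l)
          (hb : i.val < M.length) (hb' : i.val < L.length), M[i.val] = L[i.val] := by
        intro M hM hb hb'
        subst hM
        have hi' : i.val < (Q ++ [z]).length := by
          rw [List.length_append, hQl]
          simp only [List.length_cons, List.length_nil]
          omega
        have e1 : (Q ++ z :: l)[i.val] = (Q ++ [z])[i.val] := by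
          have : Q ++ z :: l = (Q ++ [z]) ++ l := by simp
          simp only [this]
          exact List.getElem_append_left hi'
        have e2 : L[i.val] = (Q ++ [z])[i.val] := by
          have : L = (Q ++ [z]) ++ l0 := by rw [hsplit]; simp
          have h7 : ∀ (M' : List (Fin (n + 1))) (hM' : M' = (Q ++ [z]) ++ l0)
              (hb'' : i.val < M'.length), M'[i.val] = (Q ++ [z])[i.val] := by
            intro M' hM' hb''
            subst hM'
            exact List.getElem_append_left hi'
          exact h7 L this hb'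
        rw [e1, e2]
      rw [h3, h4]
      exact h5 _ (hE l hl) _ _
    simp only [Finset.coe_filter, Finset.mem_univ, true_and, Set.mem_ofPred_eq]
    refine ⟨hagree, ?_⟩
    rw [hval (E l) l (hE l hl) (hagree 0 (by simpa using hr))]
    exact hl'.2
  · intro l hl l' hl' hEE
    have h3 := hE l hl
    have h4 := hE l' hl'
    rw [hEE, h4] at h3
    have h5 := List.append_cancel_left h3
    exact (List.cons.inj h5).2.symm

/-- for every Hamiltonian cycle `e₁` many Hamiltonian cycles `e` have non-zero coefficient -/
theorem every {n : ℕ} (hn : 1 ≤ n) (e₁ : Equiv.Perm (Fin (n + 1))) :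
    (n + 1) * ((n / 2)! * ((n + 1) / 2)!) ≤
      (Finset.univ.filter (fun e : Equiv.Perm (Fin (n + 1)) =>
        coeff (two (n + 1)) (ham e₁ * ham e) ≠ 0)).card := by
  classical
  -- rotations of e₁
  let ρ : Fin (n + 1) → Equiv.Perm (Fin (n + 1)) := fun k => (Equiv.addRight k).trans e₁
  have hρ : ∀ k, ham (ρ k) = ham e₁ := by
    intro k
    unfold ham
    refine Fintype.prod_equiv (Equiv.addRight k) _ _ fun i => ?_
    simp only [ρ, Equiv.trans_apply, Equiv.coe_addRight]
    congr 3
    abel
  let T : Fin (n + 1) → Finset (Equiv.Perm (Fin (n + 1))) := fun k =>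
    Finset.univ.filter (fun e : Equiv.Perm (Fin (n + 1)) =>
      (∀ i : Fin (n + 1), i.val + n ≤ n → e i = ρ k i) ∧
        coeff (two (n + 1)) (ham e₁ * ham e) ≠ 0)
  have hT : ∀ k, (n / 2)! * ((n + 1) / 2)! ≤ (T k).card := fun k =>
    completions (ham e₁) (two (n + 1)) (ρ k) n le_rfl (by rw [hρ]; exact double_ne hn e₁)
  calc (n + 1) * ((n / 2)! * ((n + 1) / 2)!)
      = ∑ _k : Fin (n + 1), ((n / 2)! * ((n + 1) / 2)!) := by
        rw [Finset.sum_const, Finset.card_univ, Fintype.card_fin, smul_eq_mul]
    _ ≤ ∑ k, (T k).card := Finset.sum_le_sum fun k _ => hT k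
    _ = (Finset.univ.biUnion T).card := by
        rw [Finset.card_biUnion]
        intro k _ k' _ hne
        show Disjoint (T k) (T k')
        rw [Finset.disjoint_left]
        intro e h1 h2
        simp only [T, Finset.mem_filter, Finset.mem_univ, true_and] at h1 h2
        have h3 := h1.1 0 (by simp)
        have h4 := h2.1 0 (by simp)
        rw [h3] at h4
        simp only [ρ, Equiv.trans_apply, Equiv.coe_addRight, zero_add] at h4
        exact hne (e₁.injective h4)
    _ ≤ _ := by
        refine Finset.card_le_card ?_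
        intro e he
        rw [Finset.mem_biUnion] at he
        obtain ⟨k, _, he⟩ := he
        simp only [T, Finset.mem_filter, Finset.mem_univ, true_and] at he ⊢
        exact he.2

end ATC
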