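import Pool.Agent.Lib.MP_94c361_co_h9.Amp

/-! # The same in terms of cyclic permutations -/

set_option autoImplicit false

namespace ATC

open MvPolynomial Nat

/-- the product of `X v - X (σ v)` over all vertices -/
noncomputable def cyc {n : ℕ} (σ : Equiv.Perm (Fin n)) : MvPolynomial (Fin n) ℤ :=
  ∏ v : Fin n, (X v - X (σ v))

theorem conj_apply {n : ℕ} (e : Equiv.Perm (Fin (n + 1))) (i : Fin (n + 1)) :
    (e * finRotate (n + 1) * e⁻¹) (e i) = e (i + 1) := by
  simp [Equiv.Perm.mul_apply]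

theorem ham_cyc {n : ℕ} (e : Equiv.Perm (Fin (n + 1))) :
    ham e = cyc (e * finRotate (n + 1) * e⁻¹) := by
  unfold ham cyc
  refine Fintype.prod_equiv e _ _ fun i => ?_
  rw [conj_apply]

theorem conj_type {n : ℕ} (hn : 1 ≤ n) (e : Equiv.Perm (Fin (n + 1))) :
    (e * finRotate (n + 1) * e⁻¹).cycleType = {n + 1} := by
  rw [Equiv.Perm.cycleType_conj]
  exact cycleType_finRotate_of_le (by omega)

theorem exists_conj {n : ℕ} (hn : 1 ≤ n) {σ : Equiv.Perm (Fin (n + 1))}
    (h : σ.cycleType = {n + 1}) :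
    ∃ e : Equiv.Perm (Fin (n + 1)), e * finRotate (n + 1) * e⁻¹ = σ := by
  have h1 : IsConj (finRotate (n + 1)) σ := by
    rw [Equiv.Perm.isConj_iff_cycleType_eq, h]
    exact cycleType_finRotate_of_le (by omega)
  exact isConj_iff.1 h1

theorem card_cyc {n : ℕ} (hn : 1 ≤ n) :
    (Finset.univ.filter (fun σ : Equiv.Perm (Fin (n + 1)) => σ.cycleType = {n + 1})).card = n ! := by
  have := Equiv.Perm.card_of_cycleType_singleton (α := Fin (n + 1)) (n := n + 1) (by omega)
    (by rw [Fintype.card_fin])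
  rw [this, Fintype.card_fin, Nat.choose_self, mul_one]
  rfl

theorem every_cyc {n : ℕ} (hn : 1 ≤ n) {σ₁ : Equiv.Perm (Fin (n + 1))}
    (h : σ₁.cycleType = {n + 1}) :
    (Finset.univ.filter (fun σ : Equiv.Perm (Fin (n + 1)) => σ.cycleType = {n + 1})).card ≤
      n.choose (n / 2) * (Finset.univ.filter (fun σ : Equiv.Perm (Fin (n + 1)) =>
        σ.cycleType = {n + 1} ∧ coeff (two (n + 1)) (cyc σ₁ * cyc σ) ≠ 0)).card := by
  classical
  obtain ⟨e₁, rfl⟩ := exists_conj hn h
  rw [card_cyc hn]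
  set G := Finset.univ.filter (fun σ : Equiv.Perm (Fin (n + 1)) =>
        σ.cycleType = {n + 1} ∧
          coeff (two (n + 1)) (cyc (e₁ * finRotate (n + 1) * e₁⁻¹) * cyc σ) ≠ 0) with hG
  set E := Finset.univ.filter (fun e : Equiv.Perm (Fin (n + 1)) =>
        coeff (two (n + 1)) (ham e₁ * ham e) ≠ 0) with hE
  have h1 : (n + 1)! ≤ n.choose (n / 2) * E.card := every_form hn e₁
  have h2 : E.card ≤ (n + 1) *
      (E.image (fun e : Equiv.Perm (Fin (n + 1)) => e * finRotate (n + 1) * e⁻¹)).card := by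
    refine Finset.card_le_mul_card_image E (n + 1) ?_
    intro τ _
    have h3 : (E.filter (fun e : Equiv.Perm (Fin (n + 1)) =>
        e * finRotate (n + 1) * e⁻¹ = τ)).card ≤ (Finset.univ : Finset (Fin (n + 1))).card := by
      refine Finset.card_le_card_of_injOn (fun e => e 0) (fun e _ => by simp) ?_
      intro e he e' he' h0
      have h4 := (Finset.mem_filter.1 (Finset.mem_coe.1 he)).2
      have h5 := (Finset.mem_filter.1 (Finset.mem_coe.1 he')).2
      have h0' : e 0 = e' 0 := h0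
      ext i
      congr 1
      induction i using Fin.induction with
      | zero => exact h0'
      | succ i ih =>
        rw [← Fin.coeSucc_eq_succ, ← conj_apply e, ← conj_apply e', h4, h5, ih]
    rw [Finset.card_univ, Fintype.card_fin] at h3
    exact h3
  have h3 : E.image (fun e : Equiv.Perm (Fin (n + 1)) => e * finRotate (n + 1) * e⁻¹) ⊆ G := by
    intro τ hτ
    obtain ⟨e, he, rfl⟩ := Finset.mem_image.1 hτ
    rw [hG, Finset.mem_filter]
    refine ⟨Finset.mem_univ _, conj_type hn e, ?_⟩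
    rw [← ham_cyc, ← ham_cyc]
    exact (Finset.mem_filter.1 he).2
  have h4 : (n + 1)! ≤ n.choose (n / 2) * ((n + 1) * G.card) :=
    h1.trans (Nat.mul_le_mul_left _ (h2.trans (Nat.mul_le_mul_left _ (Finset.card_le_card h3))))
  rw [Nat.factorial_succ, mul_left_comm] at h4
  exact Nat.le_of_mul_le_mul_left h4 (Nat.succ_pos n)

theorem pairs_cyc {n : ℕ} (hn : 1 ≤ n) :
    (1 : ℝ) / (n.choose (n / 2) : ℝ) ≤
      (((Finset.univ : Finset (Equiv.Perm (Fin (n + 1)) × Equiv.Perm (Fin (n + 1)))).filter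
          (fun p => p.1.cycleType = {n + 1} ∧ p.2.cycleType = {n + 1} ∧
            coeff (two (n + 1)) (cyc p.1 * cyc p.2) ≠ 0)).card : ℝ) /
        (((Finset.univ : Finset (Equiv.Perm (Fin (n + 1)))).filter
          (fun σ => σ.cycleType = {n + 1})).card : ℝ) ^ 2 := by
  classical
  set C := (Finset.univ : Finset (Equiv.Perm (Fin (n + 1)))).filter
          (fun σ => σ.cycleType = {n + 1}) with hC
  set D := (Finset.univ : Finset (Equiv.Perm (Fin (n + 1)) × Equiv.Perm (Fin (n + 1)))).filter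
          (fun p => p.1.cycleType = {n + 1} ∧ p.2.cycleType = {n + 1} ∧
            coeff (two (n + 1)) (cyc p.1 * cyc p.2) ≠ 0) with hD
  have hCc : C.card = n ! := card_cyc hn
  have h1 : D.card = ∑ σ₁ ∈ C, (D.filter (fun p => p.1 = σ₁)).card := by
    refine Finset.card_eq_sum_card_fiberwise (f := Prod.fst) (s := D) (t := C) ?_
    intro p hp
    have := (Finset.mem_filter.1 (Finset.mem_coe.1 hp)).2
    exact Finset.mem_coe.2 (Finset.mem_filter.2 ⟨Finset.mem_univ _, this.1⟩)
  have h2 : C.card * C.card ≤ n.choose (n / 2) * D.card := by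
    rw [h1, Finset.mul_sum]
    have h3 : C.card * C.card = ∑ _σ ∈ C, C.card := by
      rw [Finset.sum_const, smul_eq_mul]
    rw [h3]
    refine Finset.sum_le_sum fun σ₁ hσ₁ => ?_
    have h4 := (Finset.mem_filter.1 hσ₁).2
    refine (every_cyc hn h4).trans (Nat.mul_le_mul_left _ ?_)
    refine Finset.card_le_card_of_injOn (fun σ => (σ₁, σ)) ?_ ?_
    · intro σ hσ
      have h5 := (Finset.mem_filter.1 (Finset.mem_coe.1 hσ)).2
      refine Finset.mem_coe.2 (Finset.mem_filter.2 ⟨Finset.mem_filter.2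
        ⟨Finset.mem_univ _, h4, h5.1, h5.2⟩, rfl⟩)
    · intro σ _ σ' _ h5
      exact (Prod.mk.inj h5).2
  have hpos : (0 : ℝ) < (n.choose (n / 2) : ℝ) := by
    exact_mod_cast Nat.choose_pos (Nat.div_le_self n 2)
  have hposC : (0 : ℝ) < (C.card : ℝ) ^ 2 := by
    have : 0 < C.card := by rw [hCc]; exact Nat.factorial_pos n
    positivity
  rw [div_le_div_iff₀ hpos hposC, one_mul]
  have h3 : ((C.card * C.card : ℕ) : ℝ) ≤ ((n.choose (n / 2) * D.card : ℕ) : ℝ) := by
    exact_mod_cast h2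
  push_cast at h3
  nlinarith [h3]

end ATC
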