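import Mathlib

/-! # Three-term relation and completions of a Hamiltonian cycle -/

set_option autoImplicit false

namespace ATC

variable {V A : Type*} [CommRing A] (x : V → A)

/-- the product of the differences along a path -/
def W : List V → A
  | a :: b :: l => (x a - x b) * W (b :: l)
  | [_] => 1
  | [] => 1

theorem W_cons2 (a b : V) (l : List V) : W x (a :: b :: l) = (x a - x b) * W x (b :: l) := rfl

theorem W_mid (l m : List V) (a : V) : W x (l ++ a :: m) = W x (l ++ [a]) * W x (a :: m) := by
  induction l with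
  | nil => simp [W]
  | cons b l ih =>
    cases l with
    | nil =>
      simp only [List.nil_append, List.cons_append, W_cons2]
      simp [W]
    | cons c l =>
      simp only [List.cons_append, W_cons2] at ih ⊢
      rw [ih, mul_assoc]

theorem W_snoc2 (l : List V) (a b : V) : W x (l ++ [a, b]) = W x (l ++ [a]) * (x a - x b) := by
  rw [W_mid]
  simp [W]

/-- reversing a path changes the product by a sign -/
theorem W_rev (l : List V) : W x l.reverse = W x l ∨ W x l.reverse = - W x l := by
  induction l with
  | nil => left; rfl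
  | cons a l ih =>
    cases l with
    | nil => left; rfl
    | cons b l =>
      have e1 : (a :: b :: l).reverse = l.reverse ++ [b, a] := by simp
      have e2 : (b :: l).reverse = l.reverse ++ [b] := by simp
      rw [e1, W_snoc2, ← e2, W_cons2]
      rcases ih with h | h
      · right; rw [h]; ring
      · left; rw [h]; ring

/-- if a path product is non-zero for the functional, one of the two neighbours `u`, `v` can be
the first vertex after `z` -/
theorem switch (Ψ : A →+ ℤ) (z a w u v : V) (S T : List V)
    (h : Ψ (W x (z :: (w :: S ++ u :: v :: T ++ [a]))) ≠ 0) :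
    (Ψ (W x (z :: (u :: (S.reverse ++ w :: v :: T) ++ [a]))) ≠ 0) ∨
    (Ψ (W x (z :: (v :: (w :: S ++ u :: T) ++ [a]))) ≠ 0) ∨
    (Ψ (W x (z :: (v :: (u :: S.reverse ++ w :: T) ++ [a]))) ≠ 0) := by
  obtain ⟨t, T', hT⟩ : ∃ t T', T ++ [a] = t :: T' := List.exists_cons_of_ne_nil (by simp)
  -- middle part
  set M := W x (w :: S ++ [u]) with hM
  set K := W x (t :: T') with hK
  have hMr : W x (u :: S.reverse ++ [w]) = M ∨ W x (u :: S.reverse ++ [w]) = -M := by
    have e1 : u :: S.reverse ++ [w] = (w :: S ++ [u]).reverse := by simp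
    rw [e1]
    exact W_rev x _
  have e0 : W x (z :: (w :: S ++ u :: v :: T ++ [a])) =
      (x z - x w) * (M * ((x u - x v) * ((x v - x t) * K))) := by
    have e1 : w :: S ++ u :: v :: T ++ [a] = (w :: S) ++ u :: (v :: t :: T') := by
      simp [← hT]
    rw [e1]
    have e2 : z :: (w :: S ++ u :: v :: t :: T') = z :: w :: (S ++ u :: v :: t :: T') := by simp
    rw [e2, W_cons2]
    have e3 : w :: (S ++ u :: v :: t :: T') = (w :: S) ++ u :: (v :: t :: T') := by simp
    rw [e3, W_mid, W_cons2, W_cons2]
  have e1 : W x (z :: (u :: (S.reverse ++ w :: v :: T) ++ [a])) =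
      (x z - x u) * (W x (u :: S.reverse ++ [w]) * ((x w - x v) * ((x v - x t) * K))) := by
    have e1 : z :: (u :: (S.reverse ++ w :: v :: T) ++ [a]) =
        z :: u :: (S.reverse ++ w :: v :: t :: T') := by simp [← hT]
    rw [e1, W_cons2]
    have e3 : u :: (S.reverse ++ w :: v :: t :: T') = (u :: S.reverse) ++ w :: (v :: t :: T') := by
      simp
    rw [e3, W_mid, W_cons2, W_cons2]
  have e2 : W x (z :: (v :: (w :: S ++ u :: T) ++ [a])) =
      (x z - x v) * ((x v - x w) * (M * ((x u - x t) * K))) := by
    have e1 : z :: (v :: (w :: S ++ u :: T) ++ [a]) =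
        z :: v :: w :: (S ++ u :: t :: T') := by simp [← hT]
    rw [e1, W_cons2, W_cons2]
    have e3 : w :: (S ++ u :: t :: T') = (w :: S) ++ u :: (t :: T') := by simp
    rw [e3, W_mid, W_cons2]
  have e3 : W x (z :: (v :: (u :: S.reverse ++ w :: T) ++ [a])) =
      (x z - x v) * ((x v - x u) * (W x (u :: S.reverse ++ [w]) * ((x w - x t) * K))) := by
    have e1 : z :: (v :: (u :: S.reverse ++ w :: T) ++ [a]) =
        z :: v :: u :: (S.reverse ++ w :: t :: T') := by simp [← hT]
    rw [e1, W_cons2, W_cons2]
    have e3 : u :: (S.reverse ++ w :: t :: T') = (u :: S.reverse) ++ w :: (t :: T') := by simp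
    rw [e3, W_mid, W_cons2]
  by_contra hcon
  push Not at hcon
  obtain ⟨h1, h2, h3⟩ := hcon
  apply h
  rw [e1] at h1
  rw [e2] at h2
  rw [e3] at h3
  rw [e0]
  -- the three-term relation, twice
  have key : (x z - x w) * (M * ((x u - x v) * ((x v - x t) * K))) =
      (x z - x u) * (M * ((x w - x v) * ((x v - x t) * K))) +
      (x z - x v) * ((x v - x w) * (M * ((x u - x t) * K))) -
      (x z - x v) * ((x v - x u) * (M * ((x w - x t) * K))) := by ring
  rw [key]
  rcases hMr with hr | hr
  · rw [hr] at h1 h3
    rw [map_sub, map_add, h1, h2, h3]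
    simp
  · rw [hr] at h1 h3
    have h1' : Ψ ((x z - x u) * (M * ((x w - x v) * ((x v - x t) * K)))) = 0 := by
      have : (x z - x u) * (-M * ((x w - x v) * ((x v - x t) * K))) =
        - ((x z - x u) * (M * ((x w - x v) * ((x v - x t) * K)))) := by ring
      rw [this, map_neg, neg_eq_zero] at h1
      exact h1
    have h3' : Ψ ((x z - x v) * ((x v - x u) * (M * ((x w - x t) * K)))) = 0 := by
      have : (x z - x v) * ((x v - x u) * (-M * ((x w - x t) * K))) =
        - ((x z - x v) * ((x v - x u) * (M * ((x w - x t) * K)))) := by ring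
      rw [this, map_neg, neg_eq_zero] at h3
      exact h3
    rw [map_sub, map_add, h1', h2, h3']
    simp

end ATC
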